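import Pool.Agent.Helper75.SR.Goals2

/-!
# Global existence for linear ordinary differential equations on a compact interval
-/

namespace Pool.Agent.Helper40.SR

open scoped ContDiff Topology Manifold Matrix
open Set Real Pool.Agent.Helper75.SR

section

variable {E : Type} [NormedAddCommGroup E] [NormedSpace ℝ E]

theorem glode_local [CompleteSpace E] {A : ℝ → E →L[ℝ] E} {a b C : ℝ}
    (hA : ContinuousOn A (Icc a b)) (hC0 : 0 ≤ C) (hC : ∀ t ∈ Icc a b, ‖A t‖ ≤ C) {c c' : ℝ}
    (hac : a ≤ c) (hcc : c ≤ c') (hcb : c' ≤ b) (hδ : (2 * C + 1) * (c' - c) ≤ 1) (y₀ : E) :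
    ∃ y : ℝ → E, y c = y₀ ∧ ∀ t ∈ Icc c c', HasDerivWithinAt y (A t (y t)) (Icc c c') t := by
  have hsub : Icc c c' ⊆ Icc a b := Icc_subset_Icc hac hcb
  have hN : 0 ≤ ‖y₀‖ := norm_nonneg _
  have hPL : IsPicardLindelof (fun t x => A t x) (tmin := c) (tmax := c') ⟨c, le_rfl, hcc⟩ y₀
      ⟨‖y₀‖ + 1, by positivity⟩ 0 ⟨C * (2 * ‖y₀‖ + 1), by positivity⟩ ⟨C, hC0⟩ := by
    refine ⟨?_, ?_, ?_, ?_⟩
    · intro t ht
      refine (LipschitzWith.of_dist_le_mul ?_).lipschitzOnWith
      intro x y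
      rw [dist_eq_norm, dist_eq_norm, ← map_sub]
      exact (A t).le_of_opNorm_le (hC t (hsub ht)) _
    · intro x _
      exact (hA.mono hsub).clm_apply continuousOn_const
    · intro t ht x hx
      have h1 : ‖A t x‖ ≤ C * ‖x‖ := (A t).le_of_opNorm_le (hC t (hsub ht)) _
      have h2 : ‖x‖ ≤ 2 * ‖y₀‖ + 1 := by
        have h3 : dist x y₀ ≤ ‖y₀‖ + 1 := hx
        rw [dist_eq_norm] at h3
        have h4 : ‖x‖ ≤ ‖x - y₀‖ + ‖y₀‖ := by
          have := norm_add_le (x - y₀) y₀
          simpa using this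
        linarith
      exact h1.trans (mul_le_mul_of_nonneg_left h2 hC0)
    · show C * (2 * ‖y₀‖ + 1) * max (c' - c) (c - c) ≤ (‖y₀‖ + 1) - 0
      rw [sub_self, max_eq_left (by linarith), sub_zero]
      have h5 : 0 ≤ c' - c := by linarith
      have h6 : C * (c' - c) ≤ 1 / 2 := by nlinarith
      have h7 : 0 ≤ C * (c' - c) := by positivity
      nlinarith [mul_le_mul_of_nonneg_right h6 hN]
  obtain ⟨y, hy, hy'⟩ := hPL.exists_eq_forall_mem_Icc_hasDerivWithinAt₀
  exact ⟨y, hy, hy'⟩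

theorem glode_glue {A : ℝ → E →L[ℝ] E} {a c c' : ℝ} {x y : ℝ → E} (hac : a ≤ c) (hcc : c ≤ c')
    (hx : ∀ t ∈ Icc a c, HasDerivWithinAt x (A t (x t)) (Icc a c) t)
    (hy : ∀ t ∈ Icc c c', HasDerivWithinAt y (A t (y t)) (Icc c c') t) (hxy : y c = x c) :
    ∀ t ∈ Icc a c', HasDerivWithinAt (fun t => if t ≤ c then x t else y t)
      (A t ((fun t => if t ≤ c then x t else y t) t)) (Icc a c') t := by
  set z : ℝ → E := fun t => if t ≤ c then x t else y t with hz
  have hzx : ∀ t ≤ c, z t = x t := fun t ht => if_pos ht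
  have hzy : ∀ t, c ≤ t → z t = y t := by
    intro t ht
    rcases ht.eq_or_lt with h | h
    · rw [← h, hzx c le_rfl, hxy]
    · exact if_neg (not_le.2 h)
  have h1 : ∀ t ∈ Icc a c, HasDerivWithinAt z (A t (z t)) (Icc a c) t := by
    intro t ht
    rw [hzx t ht.2]
    exact (hx t ht).congr (fun s hs => hzx s hs.2) (hzx t ht.2)
  have h2 : ∀ t ∈ Icc c c', HasDerivWithinAt z (A t (z t)) (Icc c c') t := by
    intro t ht
    rw [hzy t ht.1]
    exact (hy t ht).congr (fun s hs => hzy s hs.1) (hzy t ht.1)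
  intro t ht
  rcases lt_trichotomy t c with h | h | h
  · refine (h1 t ⟨ht.1, h.le⟩).mono_of_mem_nhdsWithin ?_
    rw [mem_nhdsWithin_iff_exists_mem_nhds_inter]
    exact ⟨Iic c, Iic_mem_nhds h, fun s hs => ⟨hs.2.1, hs.1⟩⟩
  · subst h
    rw [← Icc_union_Icc_eq_Icc hac hcc]
    exact (h1 t ⟨ht.1, le_rfl⟩).union (h2 t ⟨le_rfl, ht.2⟩)
  · refine (h2 t ⟨h.le, ht.2⟩).mono_of_mem_nhdsWithin ?_
    rw [mem_nhdsWithin_iff_exists_mem_nhds_inter]
    exact ⟨Ici c, Ici_mem_nhds h, fun s hs => ⟨hs.1, hs.2.2⟩⟩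

end

/-- GLODE: global existence for linear ordinary differential equations. -/
theorem glode : GLODE := by
  intro E _ _ _ A a b hab hA x₀
  obtain ⟨C, hC⟩ := isCompact_Icc.exists_bound_of_continuousOn hA
  have hC0 : 0 ≤ C := (norm_nonneg _).trans (hC a ⟨le_rfl, hab.le⟩)
  have hpos : 0 < 2 * C + 1 := by linarith
  have key : ∀ n : ℕ, ∃ x : ℝ → E, x a = x₀ ∧ ∀ t ∈ Icc a (min b (a + n * (1 / (2 * C + 1)))),
      HasDerivWithinAt x (A t (x t)) (Icc a (min b (a + n * (1 / (2 * C + 1))))) t := by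
    intro n
    induction n with
    | zero =>
      refine ⟨fun _ => x₀, rfl, ?_⟩
      have h0 : min b (a + ((0 : ℕ) : ℝ) * (1 / (2 * C + 1))) = a := by
        simp [hab.le]
      rw [h0, Icc_self]
      intro t ht
      rw [mem_singleton_iff] at ht
      subst ht
      exact HasFDerivWithinAt.of_subsingleton subsingleton_singleton
    | succ n ih =>
      obtain ⟨x, hxa, hx⟩ := ih
      set c := min b (a + n * (1 / (2 * C + 1))) with hc
      set c' := min b (a + ((n + 1 : ℕ) : ℝ) * (1 / (2 * C + 1))) with hc'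
      have hstep : (0 : ℝ) < 1 / (2 * C + 1) := by positivity
      have hac : a ≤ c := le_min hab.le (by
        have : (0 : ℝ) ≤ n * (1 / (2 * C + 1)) := by positivity
        linarith)
      have hcc : c ≤ c' := by
        refine min_le_min le_rfl ?_
        push_cast
        nlinarith
      have hcb : c' ≤ b := min_le_left _ _
      have hδ : (2 * C + 1) * (c' - c) ≤ 1 := by
        have h1 : c' - c ≤ 1 / (2 * C + 1) := by
          have h2 : c' ≤ a + ((n + 1 : ℕ) : ℝ) * (1 / (2 * C + 1)) := min_le_right _ _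
          rcases le_total b (a + n * (1 / (2 * C + 1))) with h | h
          · have : c = b := min_eq_left h
            rw [this]
            linarith
          · have : c = a + n * (1 / (2 * C + 1)) := min_eq_right h
            rw [this]
            push_cast at h2
            linarith
        calc (2 * C + 1) * (c' - c) ≤ (2 * C + 1) * (1 / (2 * C + 1)) :=
              mul_le_mul_of_nonneg_left h1 hpos.le
          _ = 1 := by field_simp
      obtain ⟨y, hyc, hy⟩ := glode_local hA hC0 hC hac hcc hcb hδ (x c)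
      refine ⟨fun t => if t ≤ c then x t else y t, ?_, glode_glue hac hcc hx hy hyc⟩
      simp only [hac, if_true]
      exact hxa
  obtain ⟨n, hn⟩ := exists_nat_gt ((b - a) * (2 * C + 1))
  obtain ⟨x, hxa, hx⟩ := key n
  have hb : min b (a + n * (1 / (2 * C + 1))) = b := by
    refine min_eq_left ?_
    have h1 : b - a < n * (1 / (2 * C + 1)) := by
      rw [mul_one_div, lt_div_iff₀ hpos]
      exact hn
    linarith
  rw [hb] at hx
  exact ⟨x, hxa, hx⟩

end Pool.Agent.Helper40.SR
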